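import Pool.Agent.H857.MX.HodgeDefs
import Pool.Graph.R_pool_sql_team_seeded_2aa45f1a.Q64.HT.Main

/-!
# The conjecture of Hodge type for products, from the absence of relations
-/

set_option autoImplicit false

universe v

namespace Pool.Agent.H857.MX

open Polynomial Pool.Agent.Q64.HT Pool.Agent.Y1.CT

theorem pairs_of_noRel {I : Type} {q : ℕ} {F : I → ℤ[X]} {R : ℂ → Prop} (hR : NoRel F q R) :
    Pairs.{v} (RootsIn R) q F := by
  refine ⟨fun ρ hρ => ?_, ?_⟩
  · rw [map_sub, aeval_X, map_one, sub_eq_zero] at hρ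
    rw [hρ]
    exact hR.one
  · intro L _ _ s hs χ hχ hrank ρ hρ
    exact Pool.Agent.Y1.CT.exactPair_field F hR.monic q s χ hχ
      (fun ρ hρ => hR.pair s hs ρ (hrank ρ hρ)) ρ hρ

theorem hodgeTypeTimes {I : Type} {q : ℕ} (hq : 1 < q) {F : I → ℤ[X]} {R : ℂ → Prop}
    (hR : NoRel F q R) : HodgeTypeTimes (RootsIn R) q F := by
  intro k _ _ 𝒱 ops W _ s hs A Z f g hA hZ hF hB hHL
  exact hodge_iff hq (pairs_of_noRel hR) hs hA hZ hF hB hHL

end Pool.Agent.H857.MX
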