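import Mathlib

/-!
# Polynomials with all roots in a given set
-/

set_option autoImplicit false

namespace Pool.Agent.H857.MX

open Polynomial

/-- All complex roots of `χ` have the property `R`. -/
def RootsIn (R : ℂ → Prop) (χ : ℚ[X]) : Prop := ∀ ρ : ℂ, aeval ρ χ = 0 → R ρ

end Pool.Agent.H857.MX
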