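import Mathlib
import Pool.Graph.R_pool_sql_team_seeded_2aa45f1a.Q64.P.Sit
import Pool.Graph.R_seed8.Y1.CT.CodimDefs

/-!
# Homological and numerical equivalence for products with abelian varieties: definitions
-/

set_option autoImplicit false

open CategoryTheory AlgebraicGeometry

namespace Pool.Agent.H857.MX

open Polynomial Pool.Agent.H914 Pool.Agent.H914.VarClass Pool.Agent.H914.VarClass.Obj
  Pool.Agent.W492.BB Pool.Agent.W484.CK Pool.Agent.Y1.CT Pool.Agent.Q64.P

/-- `HomNumReduces P q f`: the following holds for the Chow groups `C` with rational coefficients of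
all classes `𝒱` of varieties over fields `k`, every Weil cohomology
theory `H` with coefficients in an algebraically closed field `F` of characteristic zero, all `A`,
`Z` as in `IsPairFor` where the Frobenius endomorphism `πA × πZ` acts on the Chow groups of `A × Z` in
the usual way, and all `c`: homological and numerical equivalence coincide for cycles of codimension
`c` on `A × Z` if and only if they coincide for cycles of codimension `c - i` on `Z` for all
`0 ≤ i ≤ dim A`. -/
def HomNumReduces (P : ℚ[X] → Prop) (q : ℕ) {I : Type} (f : I → ℤ[X]) : Prop :=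
  ∀ (k : Type) [Field k] (𝒱 : VarClass k) (C : TheoryData.{0, 0, 0} 𝒱 ℚ) [IsChow C]
    (F : Type) [Field F] [IsAlgClosed F] [CharZero F] (H : WeilTheoryData.{0, 0, 0} C F)
    [IsWeil H] (s : ℕ) (A Z : 𝒱.Obj) (πA : A ⟶ A) (πZ : Z ⟶ Z),
      IsPairFor H P q s f πA πZ → IsFrobenius C (prodMap πA πZ) (q ^ s) → ∀ c : ℕ,
        (HomNumIn H (A.prod Z) c ↔ ∀ i ≤ A.dim, i ≤ c → HomNumIn H Z (c - i))

end Pool.Agent.H857.MX
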