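import Pool.Agent.H857.SX.Rate

/-!
# The exceptional set, and the absence of relations outside of it
-/

set_option autoImplicit false

namespace Pool.Agent.H857.MX

open Polynomial Pool.Agent.H857.SX Pool.Agent.Y1.CT

theorem isWeilNumber_ne_zero {p : ℕ} [Fact p.Prime] {a D w : ℕ} {x : ℂ}
    (h : IsWeilNumber p a D w x) : x ≠ 0 := by
  rintro rfl
  obtain ⟨F, -, h1, h2, -⟩ := h
  have h3 := h2 0 h1
  have hp : (0 : ℝ) < p := by exact_mod_cast (Fact.out : p.Prime).pos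
  rw [norm_zero, zero_pow two_ne_zero] at h3
  exact (pow_pos (pow_pos hp a) w).ne' h3.symm

theorem not_generated_zero {q : ℕ} (hq : q ≠ 0) {κ : Type} [Fintype κ] {ρ : κ → ℂ}
    (hρ : ∀ k, ρ k ≠ 0) : ¬ Generated q ρ 0 := by
  rintro ⟨N, hN, n, t, h⟩
  rw [zero_pow hN.ne'] at h
  refine mul_ne_zero (Finset.prod_ne_zero_iff.2 fun k _ => zpow_ne_zero _ (hρ k))
    (zpow_ne_zero _ ?_) h.symm
  exact_mod_cast hq

/-- The exceptional set, with any conclusion which follows from the absence of relations. -/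
theorem master {I : Type} [Fintype I] (g : I → ℕ) (hg : ∀ i, 0 < g i) (r D c : ℕ) (hD : 0 < D)
    (P : ∀ (_ : ℕ) (_ : I → ℤ[X]) (_ : ℂ → Prop), Prop)
    (hP : ∀ (q : ℕ) (f : I → ℤ[X]) (R : ℂ → Prop), 1 < q →
      (∀ i, ∀ z : ℂ, aeval z (f i) = 0 → z ≠ 0 ∧ (q : ℂ) / z ≠ z) → ¬ R 0 →
      NoRel f q R → P q f R) :
    ∃ C : ℝ, 0 < C ∧ ∀ (p : ℕ) [Fact p.Prime] (a : ℕ), 0 < a →
      ((families g p a).Finite ∧
        ∏ i, Real.sqrt ((p : ℝ) ^ a) ^ (g i * (g i + 1) / 2) ≤ C * (families g p a).ncard ∧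
        (families g p a).ncard ≤ C * ∏ i, Real.sqrt ((p : ℝ) ^ a) ^ (g i * (g i + 1) / 2)) ∧
      ∀ (w : Fin r → ℕ) (ρ : Fin r → ℂ), (∀ k, w k < c ∧ IsWeilNumber p a D (w k) (ρ k)) →
        (({f ∈ families g p a | ¬ Independent f (p ^ a) ρ}.ncard : ℝ) ≤
            C * (rate g ((p : ℝ) ^ a) * (families g p a).ncard) ∧
          rate g ((p : ℝ) ^ a) * (families g p a).ncard ≤
            C * {f ∈ families g p a | ¬ Independent f (p ^ a) ρ}.ncard) ∧
        ∀ f ∈ families g p a, Independent f (p ^ a) ρ →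
          P (p ^ a) f (Generated (p ^ a) ρ) := by
  classical
  obtain ⟨C, hC, h⟩ := exists_rate hg r hD c
  refine ⟨C, hC, fun p _ a ha => ⟨⟨Pool.Agent.H857.PA.fams_finite g, (h p a ha).1⟩,
    fun w ρ hρ => ⟨(h p a ha).2 w ρ hρ, ?_⟩⟩⟩
  intro f hf hind
  have hp : p.Prime := Fact.out
  have hq : 1 < p ^ a := Nat.one_lt_pow ha.ne' hp.one_lt
  refine hP (p ^ a) f _ hq ?_ (not_generated_zero (by omega)
    fun k => isWeilNumber_ne_zero (hρ k).2) ((indep_iff ha (ρ := ρ) hf).2 hind)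
  intro i z hz
  have h0 : z ≠ 0 := by
    rintro rfl
    have h1 := (hf i).1.2.2.2 0 hz
    rw [norm_zero, zero_pow two_ne_zero] at h1
    exact pow_ne_zero a hp.ne_zero (by exact_mod_cast h1.symm)
  refine ⟨h0, fun h1 => hind.1 i z hz ?_⟩
  rw [div_eq_iff h0] at h1
  rw [sq, ← h1]

end Pool.Agent.H857.MX
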