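import Mathlib

/-!
# Semisimplicity of Frobenius eigenvalues on products: definitions
-/

set_option autoImplicit false

namespace Pool.Agent.H857.MX

open Module Polynomial

/-- The eigenvalue `μ` of `φ` is semisimple: every element of `ker (φ - μ) ^ 2` is in
`ker (φ - μ)`, that is, all Jordan blocks of `φ` for the eigenvalue `μ` have size one. -/
def SemisimpleAt {W : Type} [AddCommGroup W] [Module ℂ W] (φ : W →ₗ[ℂ] W) (μ : ℂ) : Prop :=
  ∀ w : W, φ (φ w - μ • w) = μ • (φ w - μ • w) → φ w = μ • w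

/-- `V` is spanned by eigenvectors of `F` with eigenvalues among the roots of the polynomials
`f i`. -/
def SpannedByRoots {I : Type} (f : I → ℤ[X]) {V : Type} [AddCommGroup V] [Module ℂ V]
    (F : V →ₗ[ℂ] V) : Prop :=
  Submodule.span ℂ {v : V | ∃ i, ∃ z : ℂ, aeval z (f i) = 0 ∧ F v = z • v} = ⊤

/-- There is an element `y` of `⋀ ^ 2 V` with `F y = q y` and `y ^ g ≠ 0`. -/
def HasAmpleClass (q : ℂ) {V : Type} [AddCommGroup V] [Module ℂ V] (F : V →ₗ[ℂ] V)
    (g : ℕ) : Prop :=
  ∃ y : ExteriorAlgebra ℂ V, y ∈ ⋀[ℂ]^2 V ∧ ExteriorAlgebra.map F y = q • y ∧ y ^ g ≠ 0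

/-- The statement `SS_i (X)` for a variety `X` over the field with `Q` elements with the groups
`W n = H ^ n_c (X)` and the Frobenius endomorphisms `G n`: the eigenvalue `Q ^ i` of `G (2 i)` is
semisimple. -/
def SSFactor (Q : ℂ) {W : ℕ → Type} [∀ n, AddCommGroup (W n)] [∀ n, Module ℂ (W n)]
    (G : ∀ n, W n →ₗ[ℂ] W n) (i : ℕ) : Prop :=
  SemisimpleAt (G (2 * i)) (Q ^ i)

/-- The statement `SS_i (A × X)`, where `A` is an abelian variety with `H ^ 1 (A) = V`, hence
`H ^ j (A) = ⋀ ^ j V`, and Frobenius endomorphism `F`, in terms of the Kunneth formula: the eigenvalue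
`Q ^ i` of `⋀ ^ j F ⊗ G n` on `⋀ ^ j V ⊗ W n` is semisimple for all `j + n = 2 i`. -/
def SSProduct (Q : ℂ) {V : Type} [AddCommGroup V] [Module ℂ V] (F : V →ₗ[ℂ] V) {W : ℕ → Type}
    [∀ n, AddCommGroup (W n)] [∀ n, Module ℂ (W n)] (G : ∀ n, W n →ₗ[ℂ] W n) (i : ℕ) : Prop :=
  ∀ j n : ℕ, j + n = 2 * i → SemisimpleAt (W := TensorProduct ℂ (⋀[ℂ]^j V) (W n))
    (TensorProduct.map (exteriorPower.map j F) (G n)) (Q ^ i)

/-- The eigenvalue one of Frobenius on the homology of `A × X`, for abelian varieties `A` and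
arbitrary varieties `X`. Let `V` be a complex vector space of dimension `2 g` (the
space `H ^ 1 (A)`, where `A` has the dimension `g`), spanned by eigenvectors of the endomorphism `F`
with eigenvalues among the roots of the polynomials `f i`, such that there is an element `y` of
`⋀ ^ 2 V` with `F y = q y` and `y ^ g ≠ 0` (the class of an ample divisor). Let `s > 0` and let `W n`
be complex vector spaces (the spaces `H ^ n_c (X)`, cohomology with compact supports, where `X` is a
variety over the field with `q ^ s` elements) with endomorphisms `G n` all of whose eigenvalues have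
the property `R`. For all `i`, `SS_i (A × X)` is equivalent to `SS_(i - k) (X)` for all `k ≤ g` with
`k ≤ i`, over the field with `q ^ s` elements. -/
def SemisimpleOfProducts {I : Type} (q : ℕ) (f : I → ℤ[X]) (R : ℂ → Prop) : Prop :=
  ∀ (V : Type) [AddCommGroup V] [Module ℂ V] [FiniteDimensional ℂ V] (F : V →ₗ[ℂ] V) (g : ℕ),
    finrank ℂ V = 2 * g → SpannedByRoots f F → HasAmpleClass (q : ℂ) F g →
    ∀ (W : ℕ → Type) [∀ n, AddCommGroup (W n)] [∀ n, Module ℂ (W n)] (G : ∀ n, W n →ₗ[ℂ] W n),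
      (∀ n, ∀ γ : ℂ, Module.End.HasEigenvalue (G n) γ → R γ) → ∀ s : ℕ, 0 < s → ∀ i : ℕ,
        SSProduct ((q : ℂ) ^ s) (F ^ s) G i ↔
          ∀ k : ℕ, k ≤ g → k ≤ i → SSFactor ((q : ℂ) ^ s) G (i - k)

end Pool.Agent.H857.MX
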