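import Pool.Agent.H857.MX.SSDefs
import Pool.Agent.H857.HK.Poles

/-!
# Semisimplicity of Frobenius eigenvalues on products
-/

set_option autoImplicit false
set_option linter.unusedSectionVars false

namespace Pool.Agent.H857.MX

open Module Polynomial Pool.Agent.H857.HK Pool.Agent.Y1.CT Pool.Agent.W484.HS
open scoped TensorProduct

section linear

variable {U W : Type} [AddCommGroup U] [Module ℂ U] [AddCommGroup W] [Module ℂ W]

lemma tmul_cancel {x : U} (hx : x ≠ 0) {w w' : W} (h : x ⊗ₜ[ℂ] w = x ⊗ₜ[ℂ] w') : w = w' := by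
  obtain ⟨l, hl⟩ := Module.Projective.exists_dual_eq_one ℂ hx
  have h1 := congrArg (fun t => TensorProduct.lid ℂ W (LinearMap.rTensor W l t)) h
  simpa [hl] using h1

/-- Tensoring with an eigenvector. -/
lemma semisimple_of_tensor (φ : U →ₗ[ℂ] U) (G : W →ₗ[ℂ] W) {x : U} (hx : x ≠ 0) {α μ : ℂ}
    (hα : α ≠ 0) (h : φ x = α • x)
    (hss : SemisimpleAt (W := U ⊗[ℂ] W) (TensorProduct.map φ G) (α * μ)) : SemisimpleAt G μ := by
  intro w hw
  have hT : ∀ v : W, TensorProduct.map φ G (x ⊗ₜ[ℂ] v) = x ⊗ₜ[ℂ] (α • G v) := by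
    intro v
    rw [TensorProduct.map_tmul, h, TensorProduct.smul_tmul]
  have h1 : TensorProduct.map φ G (x ⊗ₜ[ℂ] w) = (α * μ) • (x ⊗ₜ[ℂ] w) := by
    apply hss
    rw [hT, ← TensorProduct.tmul_smul, ← TensorProduct.tmul_sub, hT, ← TensorProduct.tmul_smul]
    congr 1
    have h2 : α • G w - (α * μ) • w = α • (G w - μ • w) := by
      rw [smul_sub, smul_smul]
    rw [h2, map_smul, hw, smul_smul, smul_smul, smul_smul]
    congr 1
    ring
  rw [hT, ← TensorProduct.tmul_smul] at h1
  have h2 := tmul_cancel hx h1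
  rw [mul_smul] at h2
  exact smul_right_injective W hα h2

/-- The components in a basis of eigenvectors. -/
lemma semisimple_of_components {ι : Type} [Fintype ι] (B : Basis ι ℂ U) (φ : U →ₗ[ℂ] U)
    (α : ι → ℂ) (hB : ∀ J, φ (B J) = α J • B J) (G : W →ₗ[ℂ] W) (μ : ℂ)
    (h : ∀ J, ∀ w : W, α J • G (α J • G w - μ • w) = μ • (α J • G w - μ • w) →
      α J • G w = μ • w) :
    SemisimpleAt (W := U ⊗[ℂ] W) (TensorProduct.map φ G) μ := by
  classical
  let e := TensorProduct.equivFinsuppOfBasisLeft (M := U) (N := W) B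
  have hrepr : ∀ (u : U) (J : ι), B.repr (φ u) J = α J * B.repr u J := by
    intro u J
    have h1 : φ u = ∑ K, (α K * B.repr u K) • B K := by
      conv_lhs => rw [← B.sum_repr u, map_sum]
      refine Finset.sum_congr rfl fun K _ => ?_
      rw [map_smul, hB, smul_smul, mul_comm]
    rw [h1, map_sum, Finsupp.finsetSum_apply]
    simp [Finsupp.single_apply]
  have he : ∀ (t : U ⊗[ℂ] W) (J : ι), e (TensorProduct.map φ G t) J = α J • G (e t J) := by
    intro t J
    induction t using TensorProduct.induction_on with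
    | zero => simp
    | tmul u w =>
      rw [TensorProduct.map_tmul, TensorProduct.equivFinsuppOfBasisLeft_apply_tmul_apply,
        TensorProduct.equivFinsuppOfBasisLeft_apply_tmul_apply, hrepr, map_smul, smul_smul]
    | add x y hx hy => rw [map_add, map_add, Finsupp.add_apply, hx, hy, map_add, Finsupp.add_apply,
        map_add, smul_add]
  intro t ht
  apply e.injective
  ext J
  have h1 : e (TensorProduct.map φ G t - μ • t) J = α J • G (e t J) - μ • e t J := by
    rw [map_sub, map_smul, Finsupp.sub_apply, Finsupp.smul_apply, he]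
  have h2 : e (TensorProduct.map φ G (TensorProduct.map φ G t - μ • t)) J =
      e (μ • (TensorProduct.map φ G t - μ • t)) J := by rw [ht]
  rw [he, h1, map_smul, Finsupp.smul_apply, h1] at h2
  rw [he, map_smul, Finsupp.smul_apply]
  exact h J (e t J) h2

end linear

variable {I : Type} {q : ℕ} {f : I → ℤ[X]} {R : ℂ → Prop}

/-- **Semisimplicity on products.** -/
theorem semisimpleOfProducts (hq : 1 < q) (hR : NoRel f q R)
    (hne : ∀ i, ∀ z : ℂ, aeval z (f i) = 0 → z ≠ 0) : SemisimpleOfProducts q f R := by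
  classical
  intro V _ _ _ F g hdim hF hy W _ _ G hG s hs i
  have hq0 : (q : ℂ) ≠ 0 := by exact_mod_cast (by omega : q ≠ 0)
  have hQ0 : (q : ℂ) ^ s ≠ 0 := pow_ne_zero _ hq0
  constructor
  · intro h k hk hki
    obtain ⟨y, hy2, hyq, hyg⟩ := hy
    have hyk : y ^ k ∈ ⋀[ℂ]^(2 * k) V := by
      have h1 := W521.Pole.pow_le_exteriorPower (Submodule.span ℂ {y}) (by
        rw [Submodule.span_singleton_le_iff_mem]; exact hy2) k
      exact h1 (Submodule.pow_mem_pow _ (Submodule.mem_span_singleton_self y) k)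
    have hyk0 : y ^ k ≠ 0 := by
      intro h0
      apply hyg
      rw [← Nat.sub_add_cancel hk, pow_add, h0, mul_zero]
    have hyF : ExteriorAlgebra.map (F ^ s) (y ^ k) = (((q : ℂ) ^ s) ^ k) • y ^ k := by
      have h1 : ExteriorAlgebra.map F (y ^ k) = ((q : ℂ) ^ k) • y ^ k := by
        rw [map_pow, hyq, _root_.smul_pow]
      rw [W521.Pole.map_pow_apply F s _ _ h1, pow_right_comm]
    have h1 := h (2 * k) (2 * (i - k)) (by omega)
    refine semisimple_of_tensor (U := ⋀[ℂ]^(2 * k) V) (exteriorPower.map (2 * k) (F ^ s))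
      (G (2 * (i - k))) (x := ⟨y ^ k, hyk⟩) ?_ (pow_ne_zero k hQ0) ?_ ?_
    · intro h0
      exact hyk0 (congrArg Subtype.val h0)
    · apply Subtype.ext
      rw [W521.Pole.map_coe]
      exact hyF
    · rw [← pow_add, Nat.add_sub_cancel' hki]
      exact h1
  · intro h j n hjn
    set E : Set ℂ := {z : ℂ | ∃ i, aeval z (f i) = 0} with hE
    have hspan : Submodule.span ℂ {v : V | ∃ μ : ℂ, μ ∈ E ∧ F v = μ • v} = ⊤ := by
      rw [← hF]
      congr 1
      ext v
      constructor
      · rintro ⟨μ, ⟨i, hi⟩, h⟩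
        exact ⟨i, μ, hi, h⟩
      · rintro ⟨i, μ, hi, h⟩
        exact ⟨μ, ⟨i, hi⟩, h⟩
    obtain ⟨ι, _, B, α, hB, hα⟩ := W521.Pole.exists_extBasis (F ^ s) _ (span_pow F hspan s) j
    refine semisimple_of_components B _ α hB (G n) _ fun J w hw => ?_
    have hα0 : α J ≠ 0 := by
      obtain ⟨m, hm1, hm2⟩ := hα J
      rw [hm2]
      refine Finset.prod_ne_zero_iff.2 fun l _ => ?_
      obtain ⟨μ, ⟨t, ht⟩, hμ⟩ := hm1 l
      rw [hμ]
      exact pow_ne_zero _ (hne t μ ht)
    set μ : ℂ := ((q : ℂ) ^ s) ^ i with hμ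
    -- there is an eigenvector, or `w = 0`
    by_cases hw0 : w = 0
    · rw [hw0]; simp
    have hev : Module.End.HasEigenvalue (G n) (μ / α J) := by
      by_cases hu : α J • G n w - μ • w = 0
      · refine Module.End.hasEigenvalue_of_hasEigenvector (x := w)
          ⟨Module.End.mem_eigenspace_iff.2 ?_, hw0⟩
        rw [sub_eq_zero] at hu
        rw [div_eq_inv_mul, mul_smul, ← hu, smul_smul, inv_mul_cancel₀ hα0, one_smul]
      · refine Module.End.hasEigenvalue_of_hasEigenvector (x := α J • G n w - μ • w)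
          ⟨Module.End.mem_eigenspace_iff.2 ?_, hu⟩
        rw [div_eq_inv_mul, mul_smul, ← hw, smul_smul, inv_mul_cancel₀ hα0, one_smul]
    obtain ⟨L, hL1, hL2⟩ : ∃ L : List (Rt f), L.length = j ∧
        α J = (L.map fun z : Rt f => (z : ℂ) ^ s).prod := by
      obtain ⟨m, hm1, hm2⟩ := hα J
      choose ν hν1 hν2 using hm1
      refine ⟨List.ofFn fun l => (⟨ν l, hν1 l⟩ : Rt f), by simp, ?_⟩
      rw [hm2, List.map_ofFn, List.prod_ofFn]
      refine Finset.prod_congr rfl fun l _ => ?_
      simp [hν2 l]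
    have hrel : (L.map fun z : Rt f => (z : ℂ) ^ s).prod * (μ / α J) = ((q : ℂ) ^ s) ^ (i : ℤ) := by
      rw [← hL2, mul_div_cancel₀ _ hα0, hμ, zpow_natCast]
    obtain ⟨k, hk1, hk2⟩ := prod_roots hq hR hs (hG n _ hev) j L hL1 i hrel
    rw [← hL2] at hk2
    have hki : k ≤ i := by omega
    have hn : n = 2 * (i - k) := by omega
    subst hn
    have hkg : k ≤ g := by
      have h1 : Nonempty ι := ⟨J⟩
      have h2 : 0 < finrank ℂ (⋀[ℂ]^j V) := by
        rw [Module.finrank_eq_card_basis B]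
        exact Fintype.card_pos
      rw [exteriorPower.finrank_eq, hdim] at h2
      by_contra h3
      rw [Nat.choose_eq_zero_of_lt (by omega)] at h2
      exact lt_irrefl _ h2
    have h1 := h k hkg hki
    have h2 : μ = α J * ((q : ℂ) ^ s) ^ (i - k) := by
      rw [hk2, ← pow_add, Nat.add_sub_cancel' hki]
    set β : ℂ := ((q : ℂ) ^ s) ^ (i - k) with hβ
    have h3 : ∀ v : W (2 * (i - k)), α J • G (2 * (i - k)) v - μ • v =
        α J • (G (2 * (i - k)) v - β • v) := by
      intro v
      rw [h2, smul_sub, smul_smul]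
    rw [h3, map_smul, h2] at hw
    have h4 : G (2 * (i - k)) (G (2 * (i - k)) w - β • w) =
        β • (G (2 * (i - k)) w - β • w) := by
      rw [smul_smul, smul_smul, mul_assoc, mul_comm β (α J), ← mul_assoc, mul_smul (α J * α J)] at hw
      exact smul_right_injective _ (mul_ne_zero hα0 hα0) hw
    rw [h1 w h4, h2, smul_smul]

end Pool.Agent.H857.MX
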